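import Pool.Agent.ATT.Stmts

/-!
# ATT, row PEJ: the jet of `pe`
-/

set_option autoImplicit false

open MeasureTheory ProbabilityTheory Function Filter

open scoped ENNReal BigOperators Topology NNReal Matrix

noncomputable section

namespace Pool.Agent.ATT.H27

open Pool.Agent.LE.QF (HJ HM gG LL dC)

theorem deriv_coshl (l : ℝ) : deriv (fun u : ℝ => Real.cosh (l * u)) =
    fun u => l * Real.sinh (l * u) := by
  funext u
  have h1 : HasDerivAt (fun u : ℝ => l * u) (l * 1) u := (hasDerivAt_id u).const_mul l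
  have h2 := h1.cosh
  rw [h2.deriv]
  ring

theorem deriv_sinhl (l : ℝ) (u : ℝ) : deriv (fun u : ℝ => l * Real.sinh (l * u)) u =
    l ^ 2 * Real.cosh (l * u) := by
  have h1 : HasDerivAt (fun u : ℝ => l * u) (l * 1) u := (hasDerivAt_id u).const_mul l
  have h2 := h1.sinh.const_mul l
  rw [h2.deriv]
  ring

theorem coshl_smooth (l u : ℝ) : ContDiffAt ℝ 2 (fun u : ℝ => Real.cosh (l * u)) u :=
  (Real.contDiff_cosh.comp (contDiff_const.mul contDiff_id)).contDiffAt

theorem abs_sinh_le (x : ℝ) : |Real.sinh x| ≤ Real.cosh x := by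
  rw [Real.sinh_eq, Real.cosh_eq, abs_le]
  have h1 := Real.exp_pos x
  have h2 := Real.exp_pos (-x)
  constructor <;> linarith

theorem term_le (l a r L : ℝ) (hl : 0 ≤ l) (hr : |r| ≤ L) :
    l * Real.sinh (l * a) * r ≤ l * Real.cosh (l * a) * L := by
  have h1 : Real.sinh (l * a) * r ≤ Real.cosh (l * a) * L := by
    calc Real.sinh (l * a) * r ≤ |Real.sinh (l * a) * r| := le_abs_self _
      _ = |Real.sinh (l * a)| * |r| := abs_mul _ _
      _ ≤ Real.cosh (l * a) * L :=
        mul_le_mul (abs_sinh_le _) hr (abs_nonneg _) (Real.cosh_pos _).le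
  calc l * Real.sinh (l * a) * r = l * (Real.sinh (l * a) * r) := by ring
    _ ≤ l * (Real.cosh (l * a) * L) := mul_le_mul_of_nonneg_left h1 hl
    _ = l * Real.cosh (l * a) * L := by ring

theorem pej (jal : Pool.Agent.LE.QF.JalStmt) : PejStmt := by
  intro ι _ _ q F z z₀ lz g l B ρ hl hF
  obtain ⟨cC, -, aC, rC, -, -, -, -⟩ := jal ι ℂ q
  obtain ⟨cR, -, aR, -, oR, -, tR, -⟩ := jal ι ℝ q
  -- the difference
  have h1 : HJ (fun r => F r - z₀) q (z - z₀) g lz := by
    have h := (aC F (fun _ => z₀) z z₀ lz 0 g (fun _ => 0) hF (cC z₀)).2.1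
    simpa only [sub_zero] using h
  have hre : HJ (fun r => (F r - z₀).re) q (z - z₀).re (fun c => (g c).re) lz.re :=
    (rC _ _ _ _ h1).2.1
  have him : HJ (fun r => (F r - z₀).im) q (z - z₀).im (fun c => (g c).im) lz.im := by
    have h2 := (aC (fun _ => -Complex.I) (fun r => F r - z₀) (-Complex.I) (z - z₀) 0 lz
      (fun _ => 0) g (cC _) h1).2.2
    have h3 := (rC _ _ _ _ h2).2.1
    have e1 : (fun r => RCLike.re (-Complex.I * (F r - z₀))) = fun r => (F r - z₀).im := by
      funext r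
      simp
    have e2 : RCLike.re (-Complex.I * (z - z₀)) = (z - z₀).im := by simp
    have e3 : (fun c => RCLike.re (-Complex.I * g c + 0 * (z - z₀))) = fun c => (g c).im := by
      funext c
      simp
    have e4 : RCLike.re (-Complex.I * lz + 0 * (z - z₀) + ∑ c, (0 : ℂ) * g c) = lz.im := by
      simp
    rw [e1, e2, e3, e4] at h3
    exact h3
  -- the hyperbolic cosines
  have hch : ∀ (w : ℝ × (ι → ℝ) → ℝ) (v lw : ℝ) (gw : ι → ℝ), HJ w q v gw lw →
      HJ (fun r => Real.cosh (l * w r)) q (Real.cosh (l * v))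
        (fun c => l * Real.sinh (l * v) * gw c)
        (l * Real.sinh (l * v) * lw + l ^ 2 * Real.cosh (l * v) / 2 * ∑ c, gw c ^ 2) := by
    intro w v lw gw hw
    have h := (oR w v lw gw hw).2 (fun u => Real.cosh (l * u)) (coshl_smooth l v)
    rw [deriv_coshl, deriv_sinhl] at h
    exact h
  have hc1 := hch _ _ _ _ hre
  have hc2 := hch _ _ _ _ him
  have hC := (aR _ _ _ _ _ _ _ _ hc1 hc2).1
  -- the exponential
  have hd : deriv (fun t : ℝ => 2 * Real.exp (B - ρ * t)) q.1 =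
      -ρ * (2 * Real.exp (B - ρ * q.1)) := by
    have d1 : HasDerivAt (fun t : ℝ => B - ρ * t) (-(ρ * 1)) q.1 :=
      ((hasDerivAt_id q.1).const_mul ρ).const_sub B
    have d2 := d1.exp.const_mul 2
    rw [d2.deriv]
    ring
  have hE : HJ (fun r : ℝ × (ι → ℝ) => 2 * Real.exp (B - ρ * r.1)) q
      (2 * Real.exp (B - ρ * q.1)) (fun _ => 0) (-ρ * (2 * Real.exp (B - ρ * q.1))) := by
    have h := tR (fun t : ℝ => 2 * Real.exp (B - ρ * t))
      (contDiff_const.mul (Real.contDiff_exp.comp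
        (contDiff_const.sub (contDiff_const.mul contDiff_id)))).contDiffAt
    rw [hd] at h
    exact h
  have hP := (aR _ _ _ _ _ _ _ _ hE hC).2.2
  refine ⟨_, _, hP, ?_⟩
  set a := (z - z₀).re with ha
  set b := (z - z₀).im with hb
  set S := ∑ c, ‖g c‖ ^ 2 with hS
  have hE0 : 0 < 2 * Real.exp (B - ρ * q.1) := by positivity
  have hpe : pe l (B - ρ * q.1) (z - z₀) =
      2 * Real.exp (B - ρ * q.1) * (Real.cosh (l * a) + Real.cosh (l * b)) := rfl
  rw [hpe]
  have s1 : ∑ c, (g c).re ^ 2 ≤ S := by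
    refine Finset.sum_le_sum fun c _ => ?_
    rw [← sq_abs (g c).re]
    exact pow_le_pow_left₀ (abs_nonneg _) (Complex.abs_re_le_norm _) 2
  have s2 : ∑ c, (g c).im ^ 2 ≤ S := by
    refine Finset.sum_le_sum fun c _ => ?_
    rw [← sq_abs (g c).im]
    exact pow_le_pow_left₀ (abs_nonneg _) (Complex.abs_im_le_norm _) 2
  have t1 := term_le l a lz.re ‖lz‖ hl (Complex.abs_re_le_norm _)
  have t2 := term_le l b lz.im ‖lz‖ hl (Complex.abs_im_le_norm _)
  have u1 : l ^ 2 * Real.cosh (l * a) / 2 * ∑ c, (g c).re ^ 2 ≤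
      l ^ 2 * Real.cosh (l * a) / 2 * S :=
    mul_le_mul_of_nonneg_left s1 (by have := Real.cosh_pos (l * a); positivity)
  have u2 : l ^ 2 * Real.cosh (l * b) / 2 * ∑ c, (g c).im ^ 2 ≤
      l ^ 2 * Real.cosh (l * b) / 2 * S :=
    mul_le_mul_of_nonneg_left s2 (by have := Real.cosh_pos (l * b); positivity)
  have hsum0 : ∑ c : ι, (0 : ℝ) * (l * Real.sinh (l * a) * (g c).re +
      l * Real.sinh (l * b) * (g c).im) = 0 := by simp
  have hfin := mul_le_mul_of_nonneg_left (add_le_add (add_le_add t1 u1) (add_le_add t2 u2)) hE0.le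
  rw [hsum0]
  nlinarith [hfin]

end Pool.Agent.ATT.H27
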